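import Pool.Agent.W345.VO.Stm

/-!
# From admissible modules to graded representations
-/

set_option autoImplicit false

namespace Pool.Agent.W885.VO

open Pool.Agent.W345.VO MvPolynomial

universe u

/-! ### Binomial coefficients -/

theorem bc_right_zero (r : ℤ) : bc r 0 = 1 := by
  unfold bc
  rw [Ring.choose_zero_right]
  norm_num

theorem bc_right_one (r : ℤ) : bc r 1 = (r : ℂ) := by
  unfold bc
  rw [Ring.choose_one_right]

theorem bc_zero_left (i : ℕ) (h : i ≠ 0) : bc 0 i = 0 := by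
  unfold bc
  rw [Ring.choose_zero_pos ℤ (Nat.pos_of_ne_zero h)]
  norm_num

theorem sg_bc1 (i : ℕ) : (-1 : ℂ) ^ i * bc (-1) i = 1 := by
  induction i with
  | zero => rw [bc_right_zero]; norm_num
  | succ k ih =>
    have h := Ring.choose_succ_succ (-1 : ℤ) k
    rw [show (-1 : ℤ) + 1 = 0 by norm_num, Ring.choose_zero_succ] at h
    have h2 : bc (-1) (k + 1) = - bc (-1) k := by
      unfold bc
      have : Ring.choose (-1 : ℤ) (k + 1) = - Ring.choose (-1 : ℤ) k := by omega
      rw [this]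
      push_cast
      rfl
    have h4 : (-1 : ℂ) ^ k * -1 * - bc (-1) k = (-1 : ℂ) ^ k * bc (-1) k := by ring
    rw [h2, pow_succ, h4, ih]

theorem sg_bc2 (i : ℕ) : (-1 : ℂ) ^ i * bc (-2) i = (i : ℂ) + 1 := by
  induction i with
  | zero => rw [bc_right_zero]; norm_num
  | succ k ih =>
    have h := Ring.choose_succ_succ (-2 : ℤ) k
    rw [show (-2 : ℤ) + 1 = -1 by norm_num] at h
    have h2 : bc (-2) (k + 1) = bc (-1) (k + 1) - bc (-2) k := by
      unfold bc
      have : Ring.choose (-2 : ℤ) (k + 1) =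
          Ring.choose (-1 : ℤ) (k + 1) - Ring.choose (-2 : ℤ) k := by omega
      rw [this]
      push_cast
      rfl
    have h3 := sg_bc1 (k + 1)
    rw [h2, mul_sub, h3, pow_succ]
    have h4 : (-1 : ℂ) ^ k * -1 * bc (-2) k = - ((-1 : ℂ) ^ k * bc (-2) k) := by ring
    rw [h4, ih]
    push_cast
    ring

/-! ### Consequences of the Borcherds identity -/

section mods

variable {A : VOA VV} {M : Type u} [AddCommGroup M] [Module ℂ M]

/-- commutator formula with two products -/
theorem comm (X : AdmModule A M) (a b p0 p1 : VV) (h0 : A.Y a 0 b = p0) (h1 : A.Y a 1 b = p1)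
    (h2 : ∀ i : ℤ, 2 ≤ i → A.Y a i b = 0) (l m : ℤ) (w : M) :
    X.Y a l (X.Y b m w) - X.Y b m (X.Y a l w) =
      X.Y p0 (l + m) w + (l : ℂ) • X.Y p1 (l + m - 1) w := by
  have h := X.borcherds a b w l m 0
  have hL : (∑ᶠ i : ℕ, bc l i • X.Y (A.Y a (0 + i) b) (l + m - i) w) =
      X.Y p0 (l + m) w + (l : ℂ) • X.Y p1 (l + m - 1) w := by
    rw [finsum_eq_sum_of_support_subset (s := {0, 1})]
    · rw [Finset.sum_pair (by norm_num)]
      rw [bc_right_zero, bc_right_one, one_smul]
      simp only [Nat.cast_zero, Nat.cast_one, zero_add, sub_zero, h0, h1]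
    · intro i hi
      rw [Function.mem_support] at hi
      by_contra hc
      apply hi
      simp only [Finset.coe_insert, Finset.coe_singleton, Set.mem_insert_iff,
        Set.mem_singleton_iff, not_or] at hc
      have h3 : (2 : ℤ) ≤ 0 + (i : ℤ) := by omega
      rw [h2 _ h3, map_zero]
      simp
  have hR : (∑ᶠ i : ℕ, ((-1 : ℂ) ^ i * bc 0 i) •
      (X.Y a (l + 0 - i) (X.Y b (m + i) w) - (-1 : ℂ) ^ (0 : ℤ) •
        X.Y b (m + 0 - i) (X.Y a (l + i) w))) =
      X.Y a l (X.Y b m w) - X.Y b m (X.Y a l w) := by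
    rw [finsum_eq_single _ 0]
    · rw [bc_right_zero]
      simp
    · intro i hi
      rw [bc_zero_left i hi, mul_zero, zero_smul]
  rw [← hL, h, hR]

/-- the `(-1)`-st product -/
theorem prod_neg_one (X : AdmModule A M) (a b : VV) (m : ℤ) (w : M) :
    ∑ᶠ i : ℕ, (X.Y a (-1 - i) (X.Y b (m + i) w) + X.Y b (m - 1 - i) (X.Y a i w)) =
      X.Y (A.Y a (-1) b) m w := by
  have h := X.borcherds a b w 0 m (-1)
  have hL : (∑ᶠ i : ℕ, bc 0 i • X.Y (A.Y a (-1 + i) b) (0 + m - i) w) =
      X.Y (A.Y a (-1) b) m w := by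
    rw [finsum_eq_single _ 0]
    · rw [bc_right_zero, one_smul]
      simp
    · intro i hi
      rw [bc_zero_left i hi, zero_smul]
  rw [← hL, h]
  refine finsum_congr fun i => ?_
  rw [sg_bc1, one_smul]
  have e : (-1 : ℂ) ^ (-1 : ℤ) = -1 := by norm_num
  rw [e, neg_one_smul, sub_neg_eq_add]
  have e1 : (0 : ℤ) + -1 - i = -1 - i := by ring
  have e2 : m + -1 - (i : ℤ) = m - 1 - i := by ring
  have e3 : (0 : ℤ) + i = i := by ring
  rw [e1, e2, e3]

/-- the modes of `x_(-2) one` -/
theorem prod_neg_two (X : AdmModule A M) (x : VV) (m : ℤ) (w : M) :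
    X.Y (A.Y x (-2) A.one) m w = (-(m : ℂ)) • X.Y x (m - 1) w := by
  have h := X.borcherds x A.one w 0 m (-2)
  have hL : (∑ᶠ i : ℕ, bc 0 i • X.Y (A.Y x (-2 + i) A.one) (0 + m - i) w) =
      X.Y (A.Y x (-2) A.one) m w := by
    rw [finsum_eq_single _ 0]
    · rw [bc_right_zero, one_smul]
      simp
    · intro i hi
      rw [bc_zero_left i hi, zero_smul]
  rw [← hL, h]
  have e : (-1 : ℂ) ^ (-2 : ℤ) = 1 := by norm_num
  have hc : ∀ i : ℕ, ((-1 : ℂ) ^ i * bc (-2) i) •
      (X.Y x (0 + -2 - i) (X.Y A.one (m + i) w) - (-1 : ℂ) ^ (-2 : ℤ) •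
        X.Y A.one (m + -2 - i) (X.Y x (0 + i) w)) =
      if (i : ℤ) = -1 - m ∨ (i : ℤ) = m - 1 then (-(m : ℂ)) • X.Y x (m - 1) w else 0 := by
    intro i
    rw [sg_bc2, e, one_smul, X.one_left, X.one_left]
    by_cases h1 : (i : ℤ) = -1 - m
    · rw [if_pos (by omega), if_neg (by omega), if_pos (Or.inl h1), sub_zero]
      have e1 : (0 : ℤ) + -2 - i = m - 1 := by omega
      have e2 : (i : ℂ) = -1 - m := by
        have := congrArg (fun z : ℤ => (z : ℂ)) h1
        push_cast at this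
        exact this
      rw [e1, e2]
      congr 1
      ring
    · by_cases h2 : (i : ℤ) = m - 1
      · rw [if_neg (by omega), if_pos (by omega), if_pos (Or.inr h2), map_zero, zero_sub]
        have e1 : (0 : ℤ) + i = m - 1 := by omega
        have e2 : (i : ℂ) = m - 1 := by
          have := congrArg (fun z : ℤ => (z : ℂ)) h2
          push_cast at this
          exact this
        rw [e1, e2, smul_neg, neg_smul]
        congr 2
        ring
      · rw [if_neg (by omega), if_neg (by omega), if_neg (by tauto), map_zero, sub_zero,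
          smul_zero]
  rw [finsum_congr hc]
  by_cases hm : m = 0
  · subst hm
    rw [finsum_eq_zero_of_forall_eq_zero]
    · simp
    · intro i
      rw [if_neg (by omega)]
  · rw [finsum_eq_single _ (|m| - 1).toNat]
    · rw [if_pos]
      have : 0 < |m| := abs_pos.2 hm
      rcases abs_cases m with h1 | h1 <;> omega
    · intro i hi
      rw [if_neg]
      rintro (h1 | h1)
      · apply hi
        rcases abs_cases m with h2 | h2 <;> omega
      · apply hi
        rcases abs_cases m with h2 | h2 <;> omega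

end mods

/-! ### The products of the generators -/

theorem al_eq : al = hOp (-1) (ee 0) := by
  have h := hOp_neg 0 0 1
  have e : (-((0 : ℕ) : ℤ) - 1) = -1 := by norm_num
  rw [e] at h
  unfold al ee
  rw [h, mul_one]

theorem hal (hHH : S_HH) (hB : S_BAS) (i : ℤ) (hi : 0 ≤ i) :
    hOp i al = if i = 1 then (2 : ℂ) • ee 0 else 0 := by
  have h := hHH i (-1) (ee 0)
  have h0 : hOp i (ee 0) = 0 := by
    by_cases h1 : i = 0
    · subst h1
      rw [hB.2.2.1]
      simp
    · exact hB.2.2.2 0 i (by omega)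
  rw [h0, map_zero, sub_zero, ← al_eq] at h
  rw [h]
  by_cases h1 : i = 1
  · subst h1
    rw [if_pos (by norm_num), if_pos rfl]
    norm_num
  · rw [if_neg (by omega), if_neg h1, zero_smul]

theorem EEe (hB : S_BAS) (i : ℤ) (hi : 0 ≤ i) :
    EE 1 i (ee (-1)) = if i = 0 then al else if i = 1 then ee 0 else 0 := by
  rw [hB.1]
  have e : (-i - 1 - 2 * 1 * -1 : ℤ) = 1 - i := by ring
  rw [e]
  have e1 : (-1 + 1 : ℤ) = 0 := by norm_num
  rw [e1]
  by_cases h0 : i = 0
  · subst h0
    rw [if_pos rfl]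
    unfold sz al
    rw [if_pos (by norm_num)]
    have : ((1 : ℤ) - 0).toNat = 0 + 1 := by norm_num
    rw [this, ss_succ]
    simp [ss_zero]
  · rw [if_neg h0]
    by_cases h1 : i = 1
    · subst h1
      rw [if_pos rfl]
      unfold sz ee
      rw [if_pos (by norm_num)]
      have : ((1 : ℤ) - 1).toNat = 0 := by norm_num
      rw [this, ss_zero]
    · rw [if_neg h1]
      unfold sz
      rw [if_neg (by omega), Finsupp.single_zero]

theorem h_neg_ee (k : ℤ) : hOp (-1) (ee k) = Finsupp.single k (X 0) := by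
  have h := hOp_neg 0 k 1
  have e : (-((0 : ℕ) : ℤ) - 1) = -1 := by norm_num
  rw [e] at h
  unfold ee
  rw [h, mul_one]

theorem rep : S_HH → S_HE → S_BAS → S_EF → S_AL → S_OM01 → S_WT01 → S_REP.{u} := by
  intro hHH _ hB _ hAL hOM hWT A hG hom M _ _ X
  obtain ⟨hone, hE1, hE2, hT⟩ := hG
  have hG' : Good A.toVertexAlgebra := ⟨hone, hE1, hE2, hT⟩
  have hal' : A.Y al = hOp := hAL _ hG'
  have hW : A.Y A.omega 1 = WW := by rw [hom]; exact (hOM _ hG').2
  have hwt : ∀ (k : ℤ) (v : VV), WW v = (k : ℂ) • v → v ∈ A.wt k := by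
    intro k v hv
    unfold VOA.wt
    rw [LinearMap.mem_ker, hW, LinearMap.sub_apply, LinearMap.smul_apply, LinearMap.id_apply, hv,
      sub_self]
  have w1 : al ∈ A.wt 1 := hwt 1 al (by rw [hWT.2.2.2.2.1]; simp)
  have w0 : ee 1 ∈ A.wt 0 := hwt 0 (ee 1) (by rw [hWT.2.2.2.1]; simp)
  have w2 : ee (-1) ∈ A.wt 2 := hwt 2 (ee (-1)) (by
    rw [hWT.2.2.2.1]
    congr 1
    norm_num)
  have hv : ∀ (n : ℤ) (w : M), X.Y (ee 0) n w = if n = -1 then w else 0 := by
    intro n w
    rw [← hone]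
    exact X.one_left n w
  have hTT : ∀ (x : VV) (m : ℤ) (w : M), X.Y (TT x) m w = (-(m : ℂ)) • X.Y x (m - 1) w := by
    intro x m w
    have h1 : TT x = A.Y x (-2) A.one := by
      have h2 := A.one_right (TT x)
      rw [hT] at h2
      have e : (-((-1 : ℤ) : ℂ)) = 1 := by norm_num
      have e' : (-1 - 1 : ℤ) = -2 := by norm_num
      rw [e, e', one_smul] at h2
      exact h2.symm
    rw [h1, prod_neg_two]
  have hAlE : ∀ k i : ℤ, A.Y al i (ee k) = hOp i (ee k) := fun k i => by rw [hal']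
  have c1 : ∀ (k l m : ℤ) (w : M), X.Y al l (X.Y (ee k) m w) - X.Y (ee k) m (X.Y al l w) =
      (2 * (k : ℂ)) • X.Y (ee k) (l + m) w := by
    intro k l m w
    rw [comm X al (ee k) ((2 * (k : ℂ)) • ee k) 0 (by rw [hAlE, hB.2.2.1])
      (by rw [hAlE, hB.2.2.2 k 1 (by norm_num)])
      (fun i hi => by rw [hAlE, hB.2.2.2 k i (by omega)])]
    rw [map_smul, map_zero]
    simp
  refine ⟨⟨X.Y al, X.Y (ee 1), X.Y (ee (-1)), X.deg, X.internal, ?_, ?_, ?_, ?_, ?_, ?_, ?_, ?_,
    ?_⟩, rfl, rfl, rfl, rfl⟩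
  · intro n d w hw
    have h := X.deg_map 1 al w1 n d w hw
    exact ⟨fun e he => h.1 e (by omega), fun h' => h.2 (by omega)⟩
  · intro n d w hw
    have h := X.deg_map 0 (ee 1) w0 n d w hw
    exact ⟨fun e he => h.1 e (by omega), fun h' => h.2 (by omega)⟩
  · intro n d w hw
    have h := X.deg_map 2 (ee (-1)) w2 n d w hw
    exact ⟨fun e he => h.1 e (by omega), fun h' => h.2 (by omega)⟩
  · intro m n w
    rw [comm X al al 0 ((2 : ℂ) • ee 0)
      (by rw [hal', hal hHH hB 0 le_rfl, if_neg (by norm_num)])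
      (by rw [hal', hal hHH hB 1 (by norm_num), if_pos rfl])
      (fun i hi => by rw [hal', hal hHH hB i (by omega), if_neg (by omega)])]
    have e : X.Y ((2 : ℂ) • ee 0) (m + n - 1) w = (2 : ℂ) • X.Y (ee 0) (m + n - 1) w := by
      rw [map_smul]
      rfl
    rw [e, hv, map_zero]
    by_cases h : m + n = 0
    · rw [if_pos (by omega), if_pos h]
      simp [smul_smul, mul_comm]
    · rw [if_neg (by omega), if_neg h]
      simp
  · intro m n w
    rw [c1]
    congr 1
    norm_num
  · intro m n w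
    rw [c1]
    congr 1
    norm_num
  · intro m n w
    rw [comm X (ee 1) (ee (-1)) al (ee 0)
      (by rw [hE1, EEe hB 0 le_rfl, if_pos rfl])
      (by rw [hE1, EEe hB 1 (by norm_num), if_neg (by norm_num), if_pos rfl])
      (fun i hi => by rw [hE1, EEe hB i (by omega), if_neg (by omega), if_neg (by omega)])]
    rw [hv]
    by_cases h : m + n = 0
    · rw [if_pos (by omega), if_pos h]
    · rw [if_neg (by omega), if_neg h, smul_zero, zero_smul]
  · intro m w
    rw [prod_neg_one X al (ee 1) m w, hAlE, h_neg_ee]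
    have h1 : Finsupp.single (1 : ℤ) (MvPolynomial.X 0 : PP) = TT (ee 1) := by
      rw [hB.2.1]
      norm_num
    rw [h1, hTT]
  · intro m w
    rw [prod_neg_one X al (ee (-1)) m w, hAlE, h_neg_ee]
    have h1 : Finsupp.single (-1 : ℤ) (MvPolynomial.X 0 : PP) = (-1 : ℂ) • TT (ee (-1)) := by
      rw [hB.2.1, Finsupp.smul_single, smul_smul]
      norm_num
    have h2 : X.Y ((-1 : ℂ) • TT (ee (-1))) m w = (-1 : ℂ) • X.Y (TT (ee (-1))) m w := by
      rw [map_smul]
      rfl
    rw [h1, h2, hTT, smul_smul]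
    congr 1
    ring

end Pool.Agent.W885.VO
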